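import Pool.Agent.Lib.MP_50ef00_gt.Pos
import Pool.Agent.Lib.MP_50ef00_gt.H65.Cocycle
import Pool.Agent.Lib.MP_50ef00_gt.H75.Union
import Pool.Agent.Lib.MP_50ef00_gt.H96.Strip
import Pool.Agent.Lib.MP_50ef00_gt.H96.WordVal

/-!
MP_50ef00_gt, P9: the relators of `Zk k` and the boundaries of the two missing triangles.
-/

namespace Pool.Agent.Lib.MP_50ef00_gt.H3

open H65

theorem isCocycle_mono {G : Type} [Group G] {K L : Finset (Finset ℕ)} {A : ℕ → ℕ → G}
    (h : K ⊆ L) (hA : IsCocycle L A) : IsCocycle K A := fun u v w huvw => hA u v w (h huvw)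

theorem bd1 : H75.Bd (attach graph R1 100) 200 :=
  H75.bd_attach (H75.bd_graph.mono (by norm_num)) (by norm_num) (by norm_num [R1])

theorem bd2 : H75.Bd (attach (attach graph R1 100) R2 200) 300 :=
  H75.bd_attach (bd1.mono (by norm_num)) (by norm_num) (by norm_num [R2])

/-- a set containing the vertex `N` is not in a complex with vertices `< N` -/
theorem ne_tau_of_bd {K : Finset (Finset ℕ)} {n N : ℕ} (h : H75.Bd K N) {s : Finset ℕ}
    (hs : s ∈ K) : s ≠ tau n N := by
  intro he
  have := h s hs N (by rw [he]; simp [tau])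
  omega

theorem Xcx_sub (k : ℕ) : Xcx ⊆ Zk k := by
  intro s hs
  unfold Zk Both
  refine Finset.mem_erase.mpr ⟨ne_tau_of_bd (H75.bd_Xcx.mono (by unfold N2; omega)) hs,
    Finset.mem_erase.mpr ⟨ne_tau_of_bd H75.bd_Xcx hs, ?_⟩⟩
  exact Finset.mem_union_left _ (Finset.mem_union_left _ hs)

theorem sub1 (k : ℕ) : (Xcx ∪ disc (nk k) (wpath (vk k)) 1000).erase (tau (nk k) 1000) ⊆ Zk k := by
  intro s hs
  obtain ⟨h1, h2⟩ := Finset.mem_erase.mp hs
  unfold Zk Both
  refine Finset.mem_erase.mpr ⟨ne_tau_of_bd (H75.bd_Kk k) h2, Finset.mem_erase.mpr ⟨h1, ?_⟩⟩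
  exact Finset.mem_union_left _ h2

/-- the vertices of a disc are at most 8 or at least `N` -/
theorem disc_vert {w : Word} {n N : ℕ} {s : Finset ℕ} (hs : s ∈ disc n (wpath w) N) {v : ℕ}
    (hv : v ∈ s) : v ≤ 8 ∨ N ≤ v := by
  unfold disc at hs
  obtain ⟨i, -, hi⟩ := Finset.mem_biUnion.mp hs
  have h1 := H75.wpath_le w i
  have h2 := H75.wpath_le w (i + 1)
  have h3 : ring n N i ≤ 8 ∨ N ≤ ring n N i := by unfold ring; split_ifs <;> omega
  have h4 : ring n N (i + 1) ≤ 8 ∨ N ≤ ring n N (i + 1) := by unfold ring; split_ifs <;> omega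
  rcases Finset.mem_union.mp hi with hi | hi
  · rcases Finset.mem_union.mp hi with hi | hi
    · have := (H75.mem_simplex.mp hi).1 hv
      simp only [Finset.mem_insert, Finset.mem_singleton] at this
      rcases this with rfl | rfl | rfl
      · exact h3
      · exact Or.inl h1
      · exact Or.inl h2
    · have := (H75.mem_simplex.mp hi).1 hv
      simp only [Finset.mem_insert, Finset.mem_singleton] at this
      rcases this with rfl | rfl | rfl
      · exact h3
      · exact Or.inl h2
      · exact h4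
  · have := (H75.mem_simplex.mp hi).1 hv
    simp only [Finset.mem_insert, Finset.mem_singleton] at this
    rcases this with rfl | rfl | rfl
    · exact Or.inr le_rfl
    · exact h3
    · exact h4

theorem sub2 (k : ℕ) :
    (Xcx ∪ disc (nk 0) (wpath (vk 0)) (N2 k)).erase (tau (nk 0) (N2 k)) ⊆ Zk k := by
  intro s hs
  obtain ⟨h1, h2⟩ := Finset.mem_erase.mp hs
  rcases Finset.mem_union.mp h2 with h2 | h2
  · exact Xcx_sub k h2
  · unfold Zk Both
    refine Finset.mem_erase.mpr ⟨h1, Finset.mem_erase.mpr ⟨?_, Finset.mem_union_right _ h2⟩⟩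
    intro he
    have h3 := disc_vert h2 (v := 1000) (by rw [he]; simp [tau])
    unfold N2 at h3
    omega

/-- P9 -/
theorem loop : LoopStatement := by
  intro G _ k A hA
  have hX : IsCocycle Xcx A := isCocycle_mono (Xcx_sub k) hA
  have hg : IsCocycle graph A := isCocycle_mono H75.graph_sub_Xcx hX
  have c1 : IsCocycle (graph ∪ disc (3 * R1.length) (wpath R1) 100) A :=
    isCocycle_mono (Finset.subset_union_left.trans Finset.subset_union_left) hX
  have c2 : IsCocycle (attach graph R1 100 ∪ disc (3 * R2.length) (wpath R2) 200) A :=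
    isCocycle_mono Finset.subset_union_left hX
  have c3 : IsCocycle (attach (attach graph R1 100) R2 200 ∪
      disc (3 * R3.length) (wpath R3) 300) A := hX
  have g1 : GoodPath graph (3 * R1.length) 100 (wpath R1) :=
    good_path graph R1 100 H75.isComplex_graph (Finset.Subset.refl _) (by simp [R1])
      (H75.bd_graph.mono (by norm_num))
  have g2 : GoodPath (attach graph R1 100) (3 * R2.length) 200 (wpath R2) :=
    good_path _ R2 200 (H75.isComplex_attach H75.isComplex_graph _ _) Finset.subset_union_left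
      (by simp [R2]) bd1
  have g3 : GoodPath (attach (attach graph R1 100) R2 200) (3 * R3.length) 300 (wpath R3) :=
    good_path _ R3 300 (H75.isComplex_attach (H75.isComplex_attach H75.isComplex_graph _ _) _ _)
      (Finset.subset_union_left.trans Finset.subset_union_left) (by simp [R3]) bd2
  have e1 : wval (lhol A) R1 = 1 := by rw [← nc3h A R1 hg]; exact nc4a _ _ _ _ A g1 c1
  have e2 : wval (lhol A) R2 = 1 := by rw [← nc3h A R2 hg]; exact nc4a _ _ _ _ A g2 c2
  have e3 : wval (lhol A) R3 = 1 := by rw [← nc3h A R3 hg]; exact nc4a _ _ _ _ A g3 c3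
  rw [H96.wval_R1] at e1
  rw [H96.wval_R2] at e2
  rw [H96.wval_R3] at e3
  refine ⟨H96.t_pow (lhol A 0) (lhol A 1) (lhol A 2) e1 (mul_inv_eq_one.mp e2)
    (mul_inv_eq_one.mp e3), ?_, ?_⟩
  · rw [← H96.strip_hol Xcx (nk k) 1000 (wpath (vk k)) A (H75.good1 good_path k)
      (isCocycle_mono (sub1 k) hA), ← H96.wval_vk]
    exact nc3h A (vk k) hg
  · have hgp : GoodPath Xcx (nk 0) (N2 k) (wpath (vk 0)) :=
      good_path Xcx (vk 0) (N2 k) H75.isComplex_Xcx H75.graph_sub_Xcx (H75.vk_ne 0)
        (H75.bd_Xcx.mono (by unfold N2; omega))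
    rw [← H96.strip_hol Xcx (nk 0) (N2 k) (wpath (vk 0)) A hgp
      (isCocycle_mono (sub2 k) hA), ← H96.wval_vk]
    exact nc3h A (vk 0) hg

end Pool.Agent.Lib.MP_50ef00_gt.H3
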